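import Pool.Agent.TH43.AB.UAC

/-!
# Assembly
-/

set_option autoImplicit false

open CategoryTheory Abelian

namespace Pool.Agent.TH43.AB

def S_GAP : Prop := ∀ {k : Type} [Field k] (_ : (2 : k) ≠ 0) (c : k) (_ : c ≠ 0) (_ : c ≠ 1)
    (_ : c ≠ -1) (L : ℕ) (_ : 0 < L) (_ : (1 - c ^ 2) ^ L = 1)
    (_ : ∀ i, 0 < i → i < L → (1 - c ^ 2) ^ i ≠ 1),
    ∃ (N : Type) (_ : AddCommGroup N) (_ : Module (SR k) N), Module.Finite (SR k) N ∧
      ¬ EV (SR k) (MM c (1 : k)) N 1 ∧ ¬ EV (SR k) (MM c (1 : k)) N (2 * L) ∧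
      ∀ i, 1 < i → i < 2 * L → EV (SR k) (MM c (1 : k)) N i

theorem exists_c (B : ℕ) : ∃ (c : AlgebraicClosure (ZMod 3)) (L : ℕ), B < L ∧ c ≠ 0 ∧ c ≠ 1 ∧
    c ≠ -1 ∧ (1 - c ^ 2) ^ L = 1 ∧ ∀ i, 0 < i → i < L → (1 - c ^ 2) ^ i ≠ 1 := by
  have : Fact (Nat.Prime 3) := ⟨Nat.prime_three⟩
  set K := AlgebraicClosure (ZMod 3) with hK
  set L := 3 * B + 4 with hL
  have hchar : CharP K 3 := charP_of_injective_algebraMap
    (algebraMap (ZMod 3) K).injective 3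
  have hne : NeZero ((L : ℕ) : ZMod 3) := ⟨by
    intro h
    rw [ZMod.natCast_eq_zero_iff] at h
    omega⟩
  obtain ⟨ζ, hζ⟩ := HasEnoughRootsOfUnity.exists_primitiveRoot K L
  have hζ0 : ζ ≠ 0 := hζ.ne_zero (by omega)
  have hζ1 : ζ ≠ 1 := by
    intro h
    have := hζ.pow_ne_one_of_pos_of_lt (by omega : (1 : ℕ) ≠ 0) (by omega)
    rw [pow_one] at this
    exact this h
  obtain ⟨c, hc⟩ := IsAlgClosed.exists_pow_nat_eq (1 - ζ) (n := 2) (by norm_num)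
  have h1 : 1 - c ^ 2 = ζ := by rw [hc]; ring
  refine ⟨c, L, by omega, ?_, ?_, ?_, ?_, ?_⟩
  · rintro rfl
    apply hζ1
    rw [← h1]
    ring
  · rintro rfl
    apply hζ0
    rw [← h1]
    ring
  · rintro rfl
    apply hζ0
    rw [← h1]
    ring
  · rw [h1]
    exact hζ.pow_eq_one
  · intro i hi hi2
    rw [h1]
    exact hζ.pow_ne_one_of_pos_of_lt (by omega) hi2

theorem main (hG : S_GROWTH) (hI : S_INEQ) (hP : S_PIGEON) (hRK : S_RK) (hGap : S_GAP) :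
    ¬ (∀ (R : Type) [CommRing R] [IsLocalRing R] [IsNoetherianRing R],
    (∃ n : ℕ, ∀ i : ℕ, n ≤ i →
        Subsingleton (Abelian.Ext (ModuleCat.of R (IsLocalRing.ResidueField R))
          (ModuleCat.of R R) i : Type)) →
    (∃ b : ℕ, ∀ M N : ModuleCat.{0} R, Module.Finite R M → Module.Finite R N →
        (∃ n : ℕ, ∀ i : ℕ, n ≤ i → Subsingleton (Abelian.Ext M N i : Type)) →
        ∀ i : ℕ, b ≤ i → Subsingleton (Abelian.Ext M N i : Type)) →
    ∃ B : ℕ, ∀ M N : ModuleCat.{0} R, Module.Finite R M → Module.Finite R N →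
      ∀ n g : ℕ, Nontrivial (Abelian.Ext M N n : Type) →
        Nontrivial (Abelian.Ext M N (n + g + 1) : Type) →
        (∀ i : ℕ, n < i → i ≤ n + g → Subsingleton (Abelian.Ext M N i : Type)) →
        g ≤ B) := by
  intro H
  have : Fact (Nat.Prime 3) := ⟨Nat.prime_three⟩
  have hchar : CharP (AlgebraicClosure (ZMod 3)) 3 := charP_of_injective_algebraMap
    (algebraMap (ZMod 3) (AlgebraicClosure (ZMod 3))).injective 3
  have h2 : (2 : AlgebraicClosure (ZMod 3)) ≠ 0 := by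
    intro h
    have h3 : ((2 : ℕ) : AlgebraicClosure (ZMod 3)) = 0 := by exact_mod_cast h
    rw [CharP.cast_eq_zero_iff (AlgebraicClosure (ZMod 3)) 3] at h3
    omega
  obtain ⟨B, hB⟩ := H (SR (AlgebraicClosure (ZMod 3)))
    ⟨1, fun i hi => SR.ev_self (IsLocalRing.ResidueField (SR (AlgebraicClosure (ZMod 3)))) i hi⟩
    ⟨1, fun M N hM hN ⟨n, hn⟩ i hi => uac hG hI hP hRK 3 M N n hn i hi⟩
  obtain ⟨c, L, hL, hc0, hc1, hc2, h1, h3⟩ := exists_c (B + 2)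
  obtain ⟨N, i1, i2, i3, g1, g2, g3⟩ := hGap h2 c hc0 hc1 hc2 L (by omega) h1 h3
  have key := hB (ModuleCat.of _ (MM c (1 : AlgebraicClosure (ZMod 3)))) (ModuleCat.of _ N)
    inferInstance i3 1 (2 * L - 2) (not_subsingleton_iff_nontrivial.1 g1) (by
      rw [show 1 + (2 * L - 2) + 1 = 2 * L by omega]
      exact not_subsingleton_iff_nontrivial.1 g2) (fun i hi hi2 => g3 i hi (by omega))
  omega

end Pool.Agent.TH43.AB
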