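import Pool.Agent.TH43.AB.Ring

/-!
# Ext-gaps of AB rings: definitions
-/

set_option autoImplicit false

open CategoryTheory

namespace Pool.Agent.TH43.AB

/-- `Ext^i_R(M, N) = 0` -/
abbrev EV (R : Type) [CommRing R] (M N : Type) [AddCommGroup M] [Module R M] [AddCommGroup N]
    [Module R N] (i : ℕ) : Prop :=
  Subsingleton (Abelian.Ext (ModuleCat.of R M) (ModuleCat.of R N) i : Type)

/-- an infinite minimal resolution by free `SR k`-modules, given by matrices: the map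
`Fin (b (i + 1)) → SR k` to `Fin (b i) → SR k` is `v ↦ P i *ᵥ v` -/
structure Res (k : Type) [Field k] where
  b : ℕ → ℕ
  P : (i : ℕ) → Matrix (Fin (b i)) (Fin (b (i + 1))) (SR k)
  exact : ∀ (i : ℕ) (v : Fin (b (i + 1)) → SR k),
    (P i).mulVec v = 0 ↔ ∃ w, (P (i + 1)).mulVec w = v
  min : ∀ (i : ℕ) (p : Fin (b i)) (q : Fin (b (i + 1))), (P i p q).u = 0

namespace Res

variable {k : Type} [Field k] (X : Res k)

/-- the image of the `i`-th differential in `Fin (b i) → SR k` -/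
def U (i : ℕ) : Submodule (SR k) (Fin (X.b i) → SR k) := LinearMap.range (X.P i).mulVecLin

/-- the `i`-th syzygy module -/
abbrev M (i : ℕ) : Type := (Fin (X.b i) → SR k) ⧸ X.U i

/-- the dual `Hom(M_i, SR k)` of the `i`-th syzygy module -/
def N (i : ℕ) : Submodule (SR k) (Fin (X.b i) → SR k) := LinearMap.ker (X.P i).transpose.mulVecLin

end Res

/-- `s` has all its coordinates in the subfield `F` -/
def SR.Mem {k : Type} [Field k] (F : Subfield k) (s : SR k) : Prop :=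
  s.u ∈ F ∧ s.a ∈ F ∧ s.x ∈ F ∧ s.y ∈ F ∧ s.v ∈ F ∧ s.w ∈ F ∧ s.z ∈ F ∧ s.o ∈ F ∧ s.ax ∈ F ∧
    s.ay ∈ F ∧ s.av ∈ F ∧ s.aw ∈ F ∧ s.az ∈ F ∧ s.ao ∈ F

/-- the matrix `[[a + c x, v], [t z, a]]` -/
def DM {k : Type} [Field k] (c t : k) : Matrix (Fin 2) (Fin 2) (SR k) :=
  !![⟨0, 1, c, 0, 0, 0, 0, 0, 0, 0, 0, 0, 0, 0⟩, ⟨0, 0, 0, 0, 1, 0, 0, 0, 0, 0, 0, 0, 0, 0⟩;
    ⟨0, 0, 0, 0, 0, 0, t, 0, 0, 0, 0, 0, 0, 0⟩, ⟨0, 1, 0, 0, 0, 0, 0, 0, 0, 0, 0, 0, 0, 0⟩]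

/-- its cokernel -/
abbrev MM {k : Type} [Field k] (c t : k) : Type :=
  (Fin 2 → SR k) ⧸ LinearMap.range (DM c t).mulVecLin

end Pool.Agent.TH43.AB
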