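import Pool.Agent.TH43.AB.Defs

/-!
# Minimal generators; finite subfields
-/

set_option autoImplicit false

namespace Pool.Agent.TH43.AB

/-- minimal generators -/
theorem min_gens {R : Type} [CommRing R] [IsLocalRing R] {M : Type} [AddCommGroup M] [Module R M]
    (G : Set M) (hG : G.Finite) :
    ∃ (b : ℕ) (g : Fin b → M), (∀ i, g i ∈ G) ∧
      Submodule.span R (Set.range g) = Submodule.span R G ∧
      ∀ s : Fin b → R, ∑ i, s i • g i = 0 → ∀ i, s i ∈ IsLocalRing.maximalIdeal R := by
  classical
  have hex : ∃ b : ℕ, ∃ g : Fin b → M, (∀ i, g i ∈ G) ∧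
      Submodule.span R (Set.range g) = Submodule.span R G := by
    obtain ⟨n, g, -, hg⟩ := hG.fin_param
    refine ⟨n, g, fun i => hg ▸ ⟨i, rfl⟩, by rw [hg]⟩
  obtain ⟨g, hg, hs⟩ := Nat.find_spec hex
  refine ⟨Nat.find hex, g, hg, hs, ?_⟩
  intro s hsum i
  by_contra hi
  have hu : IsUnit (s i) := by
    rw [IsLocalRing.mem_maximalIdeal, mem_nonunits_iff, not_not] at hi
    exact hi
  obtain ⟨b, hb⟩ : ∃ b, Nat.find hex = b + 1 := ⟨Nat.find hex - 1, by
    have := i.pos
    omega⟩
  have key : ∀ (n : ℕ) (hn : n = b + 1) (g : Fin n → M) (_ : ∀ i, g i ∈ G)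
      (_ : Submodule.span R (Set.range g) = Submodule.span R G) (s : Fin n → R)
      (_ : ∑ i, s i • g i = 0) (i : Fin n) (_ : IsUnit (s i)), False := by
    intro n hn g hg hs s hsum i hu
    subst hn
    refine Nat.find_min hex (m := b) (by omega) ⟨fun j => g (i.succAbove j), fun j => hg _, ?_⟩
    rw [← hs]
    apply le_antisymm
    · apply Submodule.span_mono
      rintro _ ⟨j, rfl⟩
      exact ⟨_, rfl⟩
    · rw [Submodule.span_le]
      rintro _ ⟨j, rfl⟩
      rcases Fin.eq_self_or_eq_succAbove i j with rfl | ⟨j', rfl⟩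
      · rw [Fin.sum_univ_succAbove _ j] at hsum
        obtain ⟨w, hw⟩ := hu
        have h1 : g j = -((w⁻¹ : Rˣ) : R) • ∑ l, s (j.succAbove l) • g (j.succAbove l) := by
          have h2 : s j • g j = -∑ l, s (j.succAbove l) • g (j.succAbove l) :=
            eq_neg_of_add_eq_zero_left hsum
          rw [neg_smul, ← smul_neg, ← h2, ← hw, smul_smul, Units.inv_mul, one_smul]
        rw [SetLike.mem_coe, h1]
        apply Submodule.smul_mem
        apply Submodule.sum_mem
        intro l _
        apply Submodule.smul_mem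
        apply Submodule.subset_span
        exact ⟨l, rfl⟩
      · apply Submodule.subset_span
        exact ⟨j', rfl⟩
  exact key _ hb g hg hs s hsum i hu

theorem finite_subfield (p : ℕ) [Fact p.Prime] (T : Set (AlgebraicClosure (ZMod p)))
    (hT : T.Finite) : ∃ F : Subfield (AlgebraicClosure (ZMod p)), Finite F ∧ T ⊆ F := by
  have hfd : FiniteDimensional (ZMod p) (IntermediateField.adjoin (ZMod p) T) := by
    have : Finite T := hT
    exact IntermediateField.finiteDimensional_adjoin
      fun x _ => (AlgebraicClosure.isAlgebraic (ZMod p)).isAlgebraic x |>.isIntegral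
  refine ⟨(IntermediateField.adjoin (ZMod p) T).toSubfield, ?_, ?_⟩
  · exact Module.finite_of_finite (ZMod p) (M := IntermediateField.adjoin (ZMod p) T)
  · exact IntermediateField.subset_adjoin (ZMod p) T

end Pool.Agent.TH43.AB
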