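import Pool.Agent.TH43.AB.ResB
import Pool.Agent.TH43.AB.Gens

/-!
# Existence of minimal resolutions defined over finite fields
-/

set_option autoImplicit false

namespace Pool.Agent.TH43.AB

/-- the kernel of a matrix with entries in `F` is generated by vectors with entries in `F` -/
def S_RK : Prop := ∀ {k : Type} [Field k] (F : Subfield k) {m n : ℕ}
    (P : Matrix (Fin m) (Fin n) (SR k)) (_ : ∀ i j, (P i j).Mem F),
    LinearMap.ker P.mulVecLin =
      Submodule.span (SR k) {v | P.mulVec v = 0 ∧ ∀ i, (v i).Mem F}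

variable {k : Type} [Field k]

theorem finite_mem (F : Subfield k) [Finite F] : {s : SR k | s.Mem F}.Finite := by
  have h : Function.Injective (fun s : {s : SR k | s.Mem F} =>
      (fun i => ⟨SR.toProd s.1 i, by
        obtain ⟨h0, h1, h2, h3, h4, h5, h6, h7, h8, h9, h10, h11, h12, h13⟩ := s.2
        fin_cases i <;> assumption⟩ : Fin 14 → F)) := by
    intro s t hst
    apply Subtype.ext
    apply (SR.coord (k := k)).injective
    funext i
    exact congrArg Subtype.val (congrFun hst i)
  exact Set.finite_coe_iff.1 (Finite.of_injective _ h)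

theorem finite_mem_pi (F : Subfield k) [Finite F] (n : ℕ) :
    {v : Fin n → SR k | ∀ i, (v i).Mem F}.Finite := by
  have := Set.Finite.pi' (fun _ : Fin n => finite_mem F)
  exact this

/-- a stage of the construction -/
structure St (F : Subfield k) where
  m : ℕ
  n : ℕ
  P : Matrix (Fin m) (Fin n) (SR k)
  rat : ∀ i j, (P i j).Mem F
  min : ∀ i j, (P i j).u = 0
  kmin : ∀ v, P.mulVec v = 0 → ∀ i, (v i).u = 0

theorem mulVec_eq_sum' {m n : ℕ} (P : Matrix (Fin m) (Fin n) (SR k)) (v : Fin n → SR k) :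
    P.mulVec v = ∑ j, v j • (fun i => P i j) := by
  rw [Matrix.mulVec_eq_sum]
  simp [Matrix.transpose]
  rfl

theorem range_of_cols {m n : ℕ} (g : Fin n → (Fin m → SR k)) (v : Fin m → SR k) :
    v ∈ Submodule.span (SR k) (Set.range g) ↔
      ∃ w, (Matrix.of fun i j => g j i : Matrix (Fin m) (Fin n) (SR k)).mulVec w = v := by
  rw [Submodule.mem_span_range_iff_exists_fun]
  apply exists_congr
  intro w
  rw [mulVec_eq_sum']
  rfl

theorem next_exists (hRK : S_RK) {F : Subfield k} [Finite F] (s : St F) :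
    ∃ (b : ℕ) (Q : Matrix (Fin s.n) (Fin b) (SR k)), (∀ i j, (Q i j).Mem F) ∧
      (∀ i j, (Q i j).u = 0) ∧ (∀ v, Q.mulVec v = 0 → ∀ i, (v i).u = 0) ∧
      ∀ v, s.P.mulVec v = 0 ↔ ∃ w, Q.mulVec w = v := by
  have hfin : {v | s.P.mulVec v = 0 ∧ ∀ i, (v i).Mem F}.Finite :=
    (finite_mem_pi F s.n).subset fun v hv => hv.2
  obtain ⟨b, g, hg, hspan, hmin⟩ := min_gens (R := SR k) _ hfin
  refine ⟨b, Matrix.of fun i j => g j i, fun i j => (hg j).2 i, fun i j => s.kmin _ (hg j).1 i,
    ?_, ?_⟩
  · intro v hv i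
    rw [mulVec_eq_sum'] at hv
    exact SR.mem_maximalIdeal.1 (hmin v hv i)
  · intro v
    rw [← range_of_cols, hspan, ← hRK F s.P s.rat, LinearMap.mem_ker, Matrix.mulVecLin_apply]

/-- the next stage -/
noncomputable def next (hRK : S_RK) {F : Subfield k} [Finite F] (s : St F) : St F where
  m := s.n
  n := (next_exists hRK s).choose
  P := (next_exists hRK s).choose_spec.choose
  rat := (next_exists hRK s).choose_spec.choose_spec.1
  min := (next_exists hRK s).choose_spec.choose_spec.2.1
  kmin := (next_exists hRK s).choose_spec.choose_spec.2.2.1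

theorem next_exact (hRK : S_RK) {F : Subfield k} [Finite F] (s : St F) (v : Fin s.n → SR k) :
    s.P.mulVec v = 0 ↔ ∃ w, (next hRK s).P.mulVec w = v :=
  (next_exists hRK s).choose_spec.choose_spec.2.2.2 v

/-- the stages -/
noncomputable def stages (hRK : S_RK) {F : Subfield k} [Finite F] (s : St F) : ℕ → St F
  | 0 => s
  | i + 1 => next hRK (stages hRK s i)

/-- the resolution starting with a given stage -/
noncomputable def resOf (hRK : S_RK) {F : Subfield k} [Finite F] (s : St F) : Res k where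
  b i := (stages hRK s i).m
  P i := (stages hRK s i).P
  exact i v := next_exact hRK (stages hRK s i) v
  min i := (stages hRK s i).min

theorem exists_res (hRK : S_RK) (p : ℕ) [Fact p.Prime] (M : Type) [AddCommGroup M]
    [Module (SR (AlgebraicClosure (ZMod p))) M]
    [Module.Finite (SR (AlgebraicClosure (ZMod p))) M] :
    ∃ (X : Res (AlgebraicClosure (ZMod p))) (F : Subfield (AlgebraicClosure (ZMod p))),
      Finite F ∧ (∀ i r s, (X.P i r s).Mem F) ∧
      Nonempty (M ≃ₗ[SR (AlgebraicClosure (ZMod p))] X.M 0) := by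
  set K := AlgebraicClosure (ZMod p) with hK
  obtain ⟨G, hG⟩ := (Module.finite_def (R := SR K) (M := M)).1 inferInstance
  obtain ⟨b, g, -, hspan, hmin⟩ := min_gens (R := SR K) (G : Set M) G.finite_toSet
  rw [hG] at hspan
  let π : (Fin b → SR K) →ₗ[SR K] M := Fintype.linearCombination (SR K) g
  have hπ : Function.Surjective π := by
    rw [← LinearMap.range_eq_top, Fintype.range_linearCombination, hspan]
  obtain ⟨G1, hG1⟩ := (IsNoetherian.noetherian (LinearMap.ker π) : (LinearMap.ker π).FG)
  -- the finite subfield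
  let T : Set K := ⋃ v ∈ (G1 : Set (Fin b → SR K)), ⋃ i : Fin b, Set.range (SR.toProd (v i))
  have hT : T.Finite := by
    apply Set.Finite.biUnion G1.finite_toSet
    intro v _
    apply Set.finite_iUnion
    intro i
    exact Set.finite_range _
  obtain ⟨F, hF, hTF⟩ := finite_subfield p T hT
  have hmem : ∀ v ∈ G1, ∀ i, (v i).Mem F := by
    intro v hv i
    have h1 : ∀ j, SR.toProd (v i) j ∈ F := by
      intro j
      apply hTF
      simp only [T, Set.mem_iUnion]
      exact ⟨v, hv, i, j, rfl⟩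
    exact ⟨h1 0, h1 1, h1 2, h1 3, h1 4, h1 5, h1 6, h1 7, h1 8, h1 9, h1 10, h1 11, h1 12, h1 13⟩
  obtain ⟨b1, g1, hg1, hspan1, hmin1⟩ := min_gens (R := SR K) (G1 : Set (Fin b → SR K))
    G1.finite_toSet
  rw [hG1] at hspan1
  let s : St F :=
    { m := b
      n := b1
      P := Matrix.of fun i j => g1 j i
      rat := fun i j => hmem _ (hg1 j) i
      min := fun i j => by
        have h1 : g1 j ∈ LinearMap.ker π := by
          rw [← hG1]
          exact Submodule.subset_span (hg1 j)
        rw [LinearMap.mem_ker, Fintype.linearCombination_apply] at h1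
        exact SR.mem_maximalIdeal.1 (hmin _ h1 i)
      kmin := fun v hv i => by
        rw [mulVec_eq_sum'] at hv
        exact SR.mem_maximalIdeal.1 (hmin1 v hv i) }
  refine ⟨resOf hRK s, F, hF, fun i => (stages hRK s i).rat, ⟨?_⟩⟩
  have h2 : (resOf hRK s).U 0 = LinearMap.ker π := by
    rw [← hspan1]
    ext v
    exact (range_of_cols g1 v).symm
  exact ((Submodule.quotEquivOfEq _ _ h2).trans (π.quotKerEquivOfSurjective hπ)).symm

/-- every finitely generated module is of the form `N 0` -/
theorem exists_res_dual (hRK : S_RK) (p : ℕ) [Fact p.Prime] (N : Type) [AddCommGroup N]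
    [Module (SR (AlgebraicClosure (ZMod p))) N]
    [Module.Finite (SR (AlgebraicClosure (ZMod p))) N] :
    ∃ (Y : Res (AlgebraicClosure (ZMod p))) (F : Subfield (AlgebraicClosure (ZMod p))),
      Finite F ∧ (∀ i r s, (Y.P i r s).Mem F) ∧
      Nonempty (N ≃ₗ[SR (AlgebraicClosure (ZMod p))] Y.N 0) := by
  set K := AlgebraicClosure (ZMod p) with hK
  obtain ⟨n, f, hf⟩ := SR.exists_embed (k := K) N
  obtain ⟨m, g, hg⟩ := SR.exists_embed (k := K) ((Fin n → SR K) ⧸ LinearMap.range f)
  let h : (Fin n → SR K) →ₗ[SR K] (Fin m → SR K) := g ∘ₗ (LinearMap.range f).mkQ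
  have hker : LinearMap.ker h = LinearMap.range f := by
    rw [LinearMap.ker_comp_of_ker_eq_bot _ (LinearMap.ker_eq_bot.2 hg), Submodule.ker_mkQ]
  let Q := LinearMap.toMatrix' h
  have hQ : Q.mulVecLin = h := by
    have := Matrix.toLin'_toMatrix' h
    rw [← Matrix.toLin'_apply']
    exact this
  have hQt : Q.transpose.transpose.mulVecLin = h := by rw [Matrix.transpose_transpose, hQ]
  obtain ⟨Y, F, hF, hrat, ⟨e⟩⟩ := exists_res hRK p
    ((Fin n → SR K) ⧸ LinearMap.range Q.transpose.mulVecLin)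
  refine ⟨Y, F, hF, hrat, ⟨?_⟩⟩
  have e1 : N ≃ₗ[SR K] LinearMap.range f := LinearEquiv.ofInjective f hf
  have e2 : LinearMap.range f ≃ₗ[SR K] LinearMap.ker Q.transpose.transpose.mulVecLin :=
    LinearEquiv.ofEq _ _ (by rw [hQt, hker])
  have e3 := homCok (k := K) Q.transpose
  have e4 := homCok (k := K) (Y.P 0)
  have e5 : (((Fin n → SR K) ⧸ LinearMap.range Q.transpose.mulVecLin) →ₗ[SR K] SR K) ≃ₗ[SR K]
      (Y.M 0 →ₗ[SR K] SR K) := LinearEquiv.congrLeft (SR K) (SR K) e
  exact e1.trans (e2.trans (e3.symm.trans (e5.trans e4)))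

end Pool.Agent.TH43.AB
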