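import Pool.Agent.TH43.AB.Defs

/-!
# Dimension shifting for `EV R M N i : Ext^i(M, N) = 0`
-/

set_option autoImplicit false

open CategoryTheory Abelian

namespace Pool.Agent.TH43.AB

variable {R : Type} [CommRing R] {K P M N I : Type} [AddCommGroup K] [Module R K]
  [AddCommGroup P] [Module R P] [AddCommGroup M] [Module R M] [AddCommGroup N] [Module R N]
  [AddCommGroup I] [Module R I]

/-- the short complex of an exact sequence -/
def sc (f : K →ₗ[R] P) (g : P →ₗ[R] M) (h : Function.Exact f g) :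
    ShortComplex (ModuleCat.{0} R) :=
  ShortComplex.mk (ModuleCat.ofHom f) (ModuleCat.ofHom g) (by
    ext x
    exact (h (f x)).2 ⟨x, rfl⟩)

theorem sc_shortExact (f : K →ₗ[R] P) (g : P →ₗ[R] M) (h : Function.Exact f g)
    (hf : Function.Injective f) (hg : Function.Surjective g) : (sc f g h).ShortExact where
  exact := by
    apply ShortComplex.Exact.moduleCat_of_range_eq_ker
    apply le_antisymm
    · rintro _ ⟨x, rfl⟩
      exact (h (f x)).2 ⟨x, rfl⟩
    · intro y hy
      exact (h y).1 hy
  mono_f := (ModuleCat.mono_iff_injective _).2 hf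
  epi_g := (ModuleCat.epi_iff_surjective _).2 hg

theorem ev_congr_left (e : M ≃ₗ[R] K) (i : ℕ) : EV R M N i ↔ EV R K N i := by
  have h : ∀ {A B : ModuleCat.{0} R} (_ : A ≅ B) (C : ModuleCat.{0} R),
      Subsingleton (Ext A C i) → Subsingleton (Ext B C i) := by
    intro A B φ C hA
    refine subsingleton_of_forall_eq 0 fun x => ?_
    have h1 : (Ext.mk₀ φ.hom).comp x (zero_add i) = 0 := Subsingleton.elim _ _
    have h2 : (Ext.mk₀ φ.inv).comp ((Ext.mk₀ φ.hom).comp x (zero_add i)) (zero_add i) = x := by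
      rw [Ext.mk₀_comp_mk₀_assoc]
      simp
    rw [← h2, h1]
    simp
  exact ⟨h e.toModuleIso _, h e.symm.toModuleIso _⟩

theorem ev_congr_right (e : N ≃ₗ[R] K) (i : ℕ) : EV R M N i ↔ EV R M K i := by
  have h : ∀ {A B : ModuleCat.{0} R} (_ : A ≅ B) (C : ModuleCat.{0} R),
      Subsingleton (Ext C A i) → Subsingleton (Ext C B i) := by
    intro A B φ C hA
    refine subsingleton_of_forall_eq 0 fun x => ?_
    have h1 : x.comp (Ext.mk₀ φ.inv) (add_zero i) = 0 := Subsingleton.elim _ _
    have h2 : (x.comp (Ext.mk₀ φ.inv) (add_zero i)).comp (Ext.mk₀ φ.hom) (add_zero i) = x := by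
      rw [Ext.comp_assoc_of_third_deg_zero, Ext.mk₀_comp_mk₀]
      simp
    rw [← h2, h1]
    simp
  exact ⟨h e.toModuleIso _, h e.symm.toModuleIso _⟩

/-- dimension shifting in the first variable -/
theorem ev_left (f : K →ₗ[R] P) (g : P →ₗ[R] M) (h : Function.Exact f g)
    (hf : Function.Injective f) (hg : Function.Surjective g) [Module.Projective R P] (i : ℕ)
    (hi : 1 ≤ i) : EV R M N (i + 1) ↔ EV R K N i := by
  obtain ⟨i, rfl⟩ : ∃ j, i = j + 1 := ⟨i - 1, by omega⟩
  have hS := sc_shortExact f g h hf hg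
  have : Projective (sc f g h).X₂ :=
    ModuleCat.projective_of_categoryTheory_projective (ModuleCat.of R P)
  constructor
  · intro hM
    refine subsingleton_of_forall_eq 0 fun x => ?_
    have h1 : hS.extClass.comp x (add_comm 1 (i + 1)) = 0 := @Subsingleton.elim _ hM _ _
    obtain ⟨y, hy⟩ := Ext.contravariant_sequence_exact₁ hS (ModuleCat.of R N) x
      (add_comm 1 (i + 1)) h1
    have h2 : y = 0 := Ext.eq_zero_of_projective _
    rw [← hy, h2, Ext.comp_zero]
    rfl
  · intro hK
    refine subsingleton_of_forall_eq 0 fun x => ?_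
    obtain ⟨y, hy⟩ := Ext.contravariant_sequence_exact₃ hS (ModuleCat.of R N) x
      (Ext.eq_zero_of_projective _) (add_comm 1 (i + 1))
    have h2 : y = 0 := @Subsingleton.elim _ hK _ _
    rw [← hy, h2, Ext.comp_zero]
    rfl

/-- `Ext^1` and extension of homomorphisms -/
theorem ev_one (f : K →ₗ[R] P) (g : P →ₗ[R] M) (h : Function.Exact f g)
    (hf : Function.Injective f) (hg : Function.Surjective g) [Module.Projective R P] :
    EV R M N 1 ↔ ∀ φ : K →ₗ[R] N, ∃ ψ : P →ₗ[R] N, ψ ∘ₗ f = φ := by
  have hS := sc_shortExact f g h hf hg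
  have : Projective (sc f g h).X₂ :=
    ModuleCat.projective_of_categoryTheory_projective (ModuleCat.of R P)
  constructor
  · intro hM φ
    have h1 : hS.extClass.comp (Ext.mk₀ (ModuleCat.ofHom φ : (sc f g h).X₁ ⟶ ModuleCat.of R N))
        (add_comm 1 0) = 0 := @Subsingleton.elim _ hM _ _
    obtain ⟨y, hy⟩ := Ext.contravariant_sequence_exact₁ hS (ModuleCat.of R N) _
      (add_comm 1 0) h1
    obtain ⟨ψ, rfl⟩ := (Ext.mk₀_bijective _ _).2 y
    rw [Ext.mk₀_comp_mk₀] at hy
    have h2 := (Ext.mk₀_bijective _ _).1 hy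
    refine ⟨ψ.hom, ?_⟩
    have h3 := congrArg ModuleCat.Hom.hom h2
    exact h3
  · intro hφ
    refine subsingleton_of_forall_eq 0 fun x => ?_
    obtain ⟨y, hy⟩ := Ext.contravariant_sequence_exact₃ hS (ModuleCat.of R N) x
      (Ext.eq_zero_of_projective _) (add_comm 1 0)
    obtain ⟨φ, rfl⟩ := (Ext.mk₀_bijective _ _).2 y
    obtain ⟨ψ, hψ⟩ := hφ φ.hom
    have h2 : (sc f g h).f ≫ ModuleCat.ofHom ψ = φ := by
      ext z
      exact LinearMap.congr_fun hψ z
    rw [← hy, ← h2, ← Ext.mk₀_comp_mk₀, ShortComplex.ShortExact.extClass_comp_assoc]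
    rfl

/-- dimension shifting in the second variable -/
theorem ev_right (f : N →ₗ[R] I) (g : I →ₗ[R] K) (h : Function.Exact f g)
    (hf : Function.Injective f) (hg : Function.Surjective g) (hI : ∀ i, 1 ≤ i → EV R M I i)
    (i : ℕ) (hi : 1 ≤ i) : EV R M K i ↔ EV R M N (i + 1) := by
  have hS := sc_shortExact f g h hf hg
  constructor
  · intro hK
    refine subsingleton_of_forall_eq 0 fun x => ?_
    obtain ⟨y, hy⟩ := Ext.covariant_sequence_exact₁ (ModuleCat.of R M) hS x
      (@Subsingleton.elim _ (hI (i + 1) (by omega)) _ _) rfl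
    have h2 : y = 0 := @Subsingleton.elim _ hK _ _
    rw [← hy, h2, Ext.zero_comp]
    rfl
  · intro hN
    refine subsingleton_of_forall_eq 0 fun x => ?_
    obtain ⟨y, hy⟩ := Ext.covariant_sequence_exact₃ (ModuleCat.of R M) hS x rfl
      (@Subsingleton.elim _ hN _ _)
    have h2 : y = 0 := @Subsingleton.elim _ (hI i hi) _ _
    rw [← hy, h2, Ext.zero_comp]
    rfl

/-- if all homomorphisms into `I` from submodules extend, then `Ext^i(M, I) = 0` for `i ≥ 1` -/
theorem ev_of_extend (hI : ∀ (P : Type) [AddCommGroup P] [Module R P] (U : Submodule R P)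
    (φ : U →ₗ[R] I), ∃ ψ : P →ₗ[R] I, ψ ∘ₗ U.subtype = φ) (i : ℕ) (hi : 1 ≤ i) :
    EV R M I i := by
  obtain ⟨i, rfl⟩ : ∃ j, i = j + 1 := ⟨i - 1, by omega⟩
  clear hi
  induction i generalizing M with
  | zero =>
    let g : (M →₀ R) →ₗ[R] M := Finsupp.linearCombination R id
    have hg : Function.Surjective g := Finsupp.linearCombination_id_surjective R M
    have h : Function.Exact (LinearMap.ker g).subtype g := by
      intro y
      simp
    refine (ev_one (K := LinearMap.ker g) (N := I) (LinearMap.ker g).subtype g h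
      Subtype.val_injective hg).2 ?_
    intro φ
    exact hI _ _ φ
  | succ i ih =>
    let g : (M →₀ R) →ₗ[R] M := Finsupp.linearCombination R id
    have hg : Function.Surjective g := Finsupp.linearCombination_id_surjective R M
    have h : Function.Exact (LinearMap.ker g).subtype g := by
      intro y
      simp
    exact (ev_left (K := LinearMap.ker g) (N := I) (LinearMap.ker g).subtype g h
      Subtype.val_injective hg (i + 1) (by omega)).2 ih

end Pool.Agent.TH43.AB
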