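import Pool.Agent.TH43.AB.Ext

/-!
# `SR k` is self-injective
-/

set_option autoImplicit false

open CategoryTheory Abelian

namespace Pool.Agent.TH43.AB

variable {k : Type} [Field k]

namespace SR

/-- the socle functional determines an element -/
theorem nondeg {s t : SR k} (h : ∀ r : SR k, (r * s).ao = (r * t).ao) : s = t := by
  have h0 := h (⟨1, 0, 0, 0, 0, 0, 0, 0, 0, 0, 0, 0, 0, 0⟩ : SR k)
  have h1 := h (⟨0, 1, 0, 0, 0, 0, 0, 0, 0, 0, 0, 0, 0, 0⟩ : SR k)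
  have h2 := h (⟨0, 0, 1, 0, 0, 0, 0, 0, 0, 0, 0, 0, 0, 0⟩ : SR k)
  have h3 := h (⟨0, 0, 0, 1, 0, 0, 0, 0, 0, 0, 0, 0, 0, 0⟩ : SR k)
  have h4 := h (⟨0, 0, 0, 0, 1, 0, 0, 0, 0, 0, 0, 0, 0, 0⟩ : SR k)
  have h5 := h (⟨0, 0, 0, 0, 0, 1, 0, 0, 0, 0, 0, 0, 0, 0⟩ : SR k)
  have h6 := h (⟨0, 0, 0, 0, 0, 0, 1, 0, 0, 0, 0, 0, 0, 0⟩ : SR k)
  have h7 := h (⟨0, 0, 0, 0, 0, 0, 0, 1, 0, 0, 0, 0, 0, 0⟩ : SR k)
  have h8 := h (⟨0, 0, 0, 0, 0, 0, 0, 0, 1, 0, 0, 0, 0, 0⟩ : SR k)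
  have h9 := h (⟨0, 0, 0, 0, 0, 0, 0, 0, 0, 1, 0, 0, 0, 0⟩ : SR k)
  have h10 := h (⟨0, 0, 0, 0, 0, 0, 0, 0, 0, 0, 1, 0, 0, 0⟩ : SR k)
  have h11 := h (⟨0, 0, 0, 0, 0, 0, 0, 0, 0, 0, 0, 1, 0, 0⟩ : SR k)
  have h12 := h (⟨0, 0, 0, 0, 0, 0, 0, 0, 0, 0, 0, 0, 1, 0⟩ : SR k)
  have h13 := h (⟨0, 0, 0, 0, 0, 0, 0, 0, 0, 0, 0, 0, 0, 1⟩ : SR k)
  simp at h0 h1 h2 h3 h4 h5 h6 h7 h8 h9 h10 h11 h12 h13
  ext <;> assumption

theorem decomp (r : SR k) : r = r.u • (⟨1, 0, 0, 0, 0, 0, 0, 0, 0, 0, 0, 0, 0, 0⟩ : SR k) + r.a • (⟨0, 1, 0, 0, 0, 0, 0, 0, 0, 0, 0, 0, 0, 0⟩ : SR k) + r.x • (⟨0, 0, 1, 0, 0, 0, 0, 0, 0, 0, 0, 0, 0, 0⟩ : SR k) + r.y • (⟨0, 0, 0, 1, 0, 0, 0, 0, 0, 0, 0, 0, 0, 0⟩ : SR k) + r.v • (⟨0, 0, 0, 0, 1, 0, 0, 0, 0, 0, 0, 0, 0, 0⟩ : SR k) + r.w • (⟨0, 0, 0, 0, 0, 1, 0, 0, 0, 0, 0, 0, 0, 0⟩ : SR k) + r.z • (⟨0, 0, 0, 0, 0, 0, 1, 0, 0, 0, 0, 0, 0,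 0⟩ : SR k) + r.o • (⟨0, 0, 0, 0, 0, 0, 0, 1, 0, 0, 0, 0, 0, 0⟩ : SR k) + r.ax • (⟨0, 0, 0, 0, 0, 0, 0, 0, 1, 0, 0, 0, 0, 0⟩ : SR k) + r.ay • (⟨0, 0, 0, 0, 0, 0, 0, 0, 0, 1, 0, 0, 0, 0⟩ : SR k) + r.av • (⟨0, 0, 0, 0, 0, 0, 0, 0, 0, 0, 1, 0, 0, 0⟩ : SR k) + r.aw • (⟨0, 0, 0, 0, 0, 0, 0, 0, 0, 0, 0, 1, 0, 0⟩ : SR k) + r.az • (⟨0, 0, 0, 0, 0, 0, 0, 0, 0, 0, 0, 0, 1, 0⟩ : SR k) + r.ao • (⟨0, 0, 0, 0, 0, 0, 0, 0, 0, 0, 0, 0, 0, 1⟩ : SR k) := by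
  ext <;> simp

section

variable {P : Type} [AddCommGroup P] [Module (SR k) P] [Module k P] [IsScalarTower k (SR k) P]

/-- the map to `SR k` with given socle functional -/
def linFun (g : P →ₗ[k] k) (p : P) : SR k :=
  ⟨g ((⟨0, 0, 0, 0, 0, 0, 0, 0, 0, 0, 0, 0, 0, 1⟩ : SR k) • p), g ((⟨0, 0, 0, 0, 0, 0, 0, 1, 0, 0, 0, 0, 0, 0⟩ : SR k) • p), g ((⟨0, 0, 0, 0, 0, 0, 0, 0, 0, 1, 0, 0, 0, 0⟩ : SR k) • p), g ((⟨0, 0, 0, 0, 0, 0, 0, 0, 1, 0, 0, 0, 0, 0⟩ : SR k) • p), g ((⟨0, 0, 0, 0, 0, 0, 0, 0, 0, 0, 0, 1, 0, 0⟩ : SR k) • p), g ((⟨0, 0, 0, 0, 0, 0, 0, 0, 0, 0, 1, 0, 0, 0⟩ : SR k) • p), g ((⟨0, 0, 0, 0, 0, 0, 0, 0, 0, 0, 0, 0, 1, 0⟩ : SR k) • p), g ((⟨0, 1, 0, 0, 0, 0, 0, 0, 0, 0, 0, 0, 0, 0⟩ : SR k) • p), g ((⟨0, 0, 0, 1, 0, 0, 0, 0, 0, 0, 0, 0, 0, 0⟩ : SR k) • p), g ((⟨0, 0, 1, 0, 0, 0, 0, 0, 0, 0, 0, 0, 0, 0⟩ : SR k) • p), g ((⟨0, 0, 0, 0, 0, 1, 0,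 0, 0, 0, 0, 0, 0, 0⟩ : SR k) • p), g ((⟨0, 0, 0, 0, 1, 0, 0, 0, 0, 0, 0, 0, 0, 0⟩ : SR k) • p), g ((⟨0, 0, 0, 0, 0, 0, 1, 0, 0, 0, 0, 0, 0, 0⟩ : SR k) • p), g p⟩

theorem ao_mul_linFun (g : P →ₗ[k] k) (r : SR k) (p : P) : (r * linFun g p).ao = g (r • p) := by
  have h1 : g p = g ((⟨1, 0, 0, 0, 0, 0, 0, 0, 0, 0, 0, 0, 0, 0⟩ : SR k) • p) := by
    have : (⟨1, 0, 0, 0, 0, 0, 0, 0, 0, 0, 0, 0, 0, 0⟩ : SR k) = 1 := rfl
    rw [this, one_smul]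
  conv_rhs => rw [decomp r]
  simp only [add_smul, map_add, smul_assoc, map_smul, smul_eq_mul]
  rw [mul_ao, linFun]
  simp only
  rw [← h1]
  ring

/-- the `SR k`-linear map to `SR k` with given socle functional -/
def lin (g : P →ₗ[k] k) : P →ₗ[SR k] SR k where
  toFun p := linFun g p
  map_add' p q := nondeg fun r => by
    rw [mul_add, add_ao, ao_mul_linFun, ao_mul_linFun, ao_mul_linFun, smul_add, map_add]
  map_smul' t p := nondeg fun r => by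
    rw [RingHom.id_apply, smul_eq_mul, ao_mul_linFun, ← mul_assoc, ao_mul_linFun, mul_smul]

@[simp] theorem lin_ao (g : P →ₗ[k] k) (p : P) : (lin g p).ao = g p := rfl

end

/-- homomorphisms into `SR k` extend -/
theorem extend (P : Type) [AddCommGroup P] [Module (SR k) P] (U : Submodule (SR k) P)
    (φ : U →ₗ[SR k] SR k) : ∃ ψ : P →ₗ[SR k] SR k, ψ ∘ₗ U.subtype = φ := by
  let _ : Module k P := Module.compHom P (algebraMap k (SR k))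
  have : IsScalarTower k (SR k) P := ⟨fun c s p => by
    show (c • s) • p = algebraMap k (SR k) c • s • p
    rw [smul_smul, Algebra.smul_def]⟩
  let V : Submodule k P := U.restrictScalars k
  let ao : SR k →ₗ[k] k :=
    { toFun := fun s => s.ao
      map_add' := fun s t => rfl
      map_smul' := fun c s => rfl }
  let g0 : V →ₗ[k] k := ao ∘ₗ (φ.restrictScalars k : U →ₗ[k] SR k)
  obtain ⟨g, hg⟩ := LinearMap.exists_extend g0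
  refine ⟨lin g, ?_⟩
  apply LinearMap.ext
  intro u
  apply nondeg
  intro r
  have h1 : (r * (lin g ∘ₗ U.subtype) u).ao = g (r • (u : P)) := ao_mul_linFun g r u
  have h2 : g (r • (u : P)) = g0 (r • u) := LinearMap.congr_fun hg (r • u)
  have h3 : g0 (r • u) = (φ (r • u)).ao := rfl
  rw [h1, h2, h3, map_smul, smul_eq_mul]

theorem extend_pi (n : ℕ) (P : Type) [AddCommGroup P] [Module (SR k) P] (U : Submodule (SR k) P)
    (φ : U →ₗ[SR k] (Fin n → SR k)) :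
    ∃ ψ : P →ₗ[SR k] (Fin n → SR k), ψ ∘ₗ U.subtype = φ := by
  choose ψ hψ using fun i => extend P U ((LinearMap.proj i) ∘ₗ φ)
  refine ⟨LinearMap.pi ψ, ?_⟩
  apply LinearMap.ext
  intro u
  funext i
  exact LinearMap.congr_fun (hψ i) u

theorem ev_pi (n : ℕ) (M : Type) [AddCommGroup M] [Module (SR k) M] (i : ℕ) (hi : 1 ≤ i) :
    EV (SR k) M (Fin n → SR k) i :=
  ev_of_extend (fun P _ _ U φ => extend_pi n P U φ) i hi

theorem ev_self (M : Type) [AddCommGroup M] [Module (SR k) M] (i : ℕ) (hi : 1 ≤ i) :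
    EV (SR k) M (SR k) i :=
  ev_of_extend (fun P _ _ U φ => extend P U φ) i hi

/-- finitely generated modules embed into free modules -/
theorem exists_embed (M : Type) [AddCommGroup M] [Module (SR k) M] [Module.Finite (SR k) M] :
    ∃ (n : ℕ) (f : M →ₗ[SR k] (Fin n → SR k)), Function.Injective f := by
  let _ : Module k M := Module.compHom M (algebraMap k (SR k))
  have : IsScalarTower k (SR k) M := ⟨fun c s p => by
    show (c • s) • p = algebraMap k (SR k) c • s • p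
    rw [smul_smul, Algebra.smul_def]⟩
  have : Module.Finite k M := Module.Finite.trans (SR k) M
  let b := Module.finBasis k M
  refine ⟨Module.finrank k M, LinearMap.pi fun i => lin (b.coord i), ?_⟩
  rw [← LinearMap.ker_eq_bot, LinearMap.ker_eq_bot']
  intro p hp
  apply b.ext_elem
  intro i
  have h1 := congrArg SR.ao (congrFun hp i)
  simpa using h1

/-- the transpose of an exact sequence is exact -/
theorem transpose_exact {l m n : ℕ} (P : Matrix (Fin l) (Fin m) (SR k))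
    (Q : Matrix (Fin m) (Fin n) (SR k))
    (h : ∀ v, P.mulVec v = 0 ↔ ∃ w, Q.mulVec w = v) (y : Fin m → SR k) :
    Q.transpose.mulVec y = 0 ↔ ∃ x, P.transpose.mulVec x = y := by
  constructor
  · intro hy
    let f : (Fin m → SR k) →ₗ[SR k] SR k :=
      { toFun := fun v => y ⬝ᵥ v
        map_add' := fun v w => dotProduct_add y v w
        map_smul' := fun c v => by rw [dotProduct_smul, RingHom.id_apply] }
    have hf : LinearMap.ker P.mulVecLin ≤ LinearMap.ker f := by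
      intro v hv
      obtain ⟨w, rfl⟩ := (h v).1 hv
      show y ⬝ᵥ Q.mulVec w = 0
      rw [Matrix.dotProduct_mulVec, ← Matrix.mulVec_transpose, hy, zero_dotProduct]
    let φ : LinearMap.range P.mulVecLin →ₗ[SR k] SR k :=
      ((LinearMap.ker P.mulVecLin).liftQ f hf) ∘ₗ
        (P.mulVecLin.quotKerEquivRange.symm : _ →ₗ[SR k] _)
    obtain ⟨ψ, hψ⟩ := extend _ _ φ
    have h1 : ∀ v, ψ (P.mulVec v) = y ⬝ᵥ v := by
      intro v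
      have h2 := LinearMap.congr_fun hψ ⟨P.mulVecLin v, ⟨v, rfl⟩⟩
      have h3 : P.mulVecLin.quotKerEquivRange.symm ⟨P.mulVecLin v, ⟨v, rfl⟩⟩ =
          Submodule.Quotient.mk v := by
        rw [LinearEquiv.symm_apply_eq]
        rfl
      have h4 : φ ⟨P.mulVecLin v, ⟨v, rfl⟩⟩ = y ⬝ᵥ v := by
        show (LinearMap.ker P.mulVecLin).liftQ f hf
          (P.mulVecLin.quotKerEquivRange.symm ⟨P.mulVecLin v, ⟨v, rfl⟩⟩) = _
        rw [h3]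
        rfl
      rw [h4] at h2
      exact h2
    refine ⟨fun i => ψ (Pi.single i 1), ?_⟩
    have h5 : ∀ u : Fin l → SR k, ψ u = (fun i => ψ (Pi.single i 1)) ⬝ᵥ u := by
      intro u
      conv_lhs => rw [pi_eq_sum_univ' u]
      rw [map_sum, dotProduct]
      apply Finset.sum_congr rfl
      intro i _
      rw [map_smul, smul_eq_mul, mul_comm]
    have h6 : ∀ v, (P.transpose.mulVec fun i => ψ (Pi.single i 1)) ⬝ᵥ v = y ⬝ᵥ v := by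
      intro v
      rw [← h1, h5, Matrix.mulVec_transpose, ← Matrix.dotProduct_mulVec]
    funext j
    have := h6 (Pi.single j 1)
    simpa using this
  · rintro ⟨x, rfl⟩
    funext j
    have h1 : P.mulVec (Q.mulVec (Pi.single j 1)) = 0 := (h _).2 ⟨_, rfl⟩
    have h2 : Q.transpose.mulVec (P.transpose.mulVec x) ⬝ᵥ Pi.single j 1 = 0 := by
      rw [Matrix.mulVec_transpose, ← Matrix.dotProduct_mulVec, Matrix.mulVec_transpose,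
        ← Matrix.dotProduct_mulVec, h1, dotProduct_zero]
    simpa using h2

end SR

end Pool.Agent.TH43.AB
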