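import Pool.Agent.TH43.AB.Inj

/-!
# Basic facts on resolutions
-/

set_option autoImplicit false

open CategoryTheory Abelian

namespace Pool.Agent.TH43.AB

variable {k : Type} [Field k]

namespace Res

variable (X : Res k)

theorem ker_eq (i : ℕ) : LinearMap.ker (X.P i).mulVecLin = X.U (i + 1) := by
  ext v
  rw [LinearMap.mem_ker, Matrix.mulVecLin_apply, X.exact i v]
  rfl

/-- the image of the differential is the next syzygy module -/
noncomputable def eU (i : ℕ) : X.M (i + 1) ≃ₗ[SR k] X.U i :=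
  (Submodule.quotEquivOfEq _ _ (X.ker_eq i).symm).trans (X.P i).mulVecLin.quotKerEquivRange

theorem mem_N_succ (j : ℕ) (c : Fin (X.b (j + 1)) → SR k) :
    c ∈ X.N (j + 1) ↔ ∃ d, (X.P j).transpose.mulVec d = c := by
  rw [← SR.transpose_exact (X.P j) (X.P (j + 1)) (X.exact j) c]
  rfl

theorem ev_M_one (i : ℕ) (K : Type) [AddCommGroup K] [Module (SR k) K] :
    EV (SR k) (X.M i) K 1 ↔ ∀ φ : X.U i →ₗ[SR k] K,
      ∃ ψ : (Fin (X.b i) → SR k) →ₗ[SR k] K, ψ ∘ₗ (X.U i).subtype = φ :=
  ev_one (X.U i).subtype (X.U i).mkQ (by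
    intro v
    simp) Subtype.val_injective (Submodule.mkQ_surjective _)

theorem ev_M_succ (i : ℕ) (K : Type) [AddCommGroup K] [Module (SR k) K] (l : ℕ) (hl : 1 ≤ l) :
    EV (SR k) (X.M i) K (l + 1) ↔ EV (SR k) (X.M (i + 1)) K l := by
  rw [ev_congr_left (X.eU i) l]
  exact ev_left (X.U i).subtype (X.U i).mkQ (by
    intro v
    simp) Subtype.val_injective (Submodule.mkQ_surjective _) l hl

theorem ev_M (i : ℕ) (K : Type) [AddCommGroup K] [Module (SR k) K] (l : ℕ) (hl : 1 ≤ l) :
    EV (SR k) (X.M 0) K (l + i) ↔ EV (SR k) (X.M i) K l := by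
  induction i generalizing l with
  | zero => rfl
  | succ i ih =>
    rw [← X.ev_M_succ i K l hl, ← ih (l + 1) (by omega)]
    rw [show l + 1 + i = l + (i + 1) by omega]

theorem ev_N_succ (j : ℕ) (K : Type) [AddCommGroup K] [Module (SR k) K] (l : ℕ) (hl : 1 ≤ l) :
    EV (SR k) K (X.N (j + 1)) l ↔ EV (SR k) K (X.N j) (l + 1) := by
  have hmem : ∀ v, (X.P j).transpose.mulVecLin v ∈ X.N (j + 1) := fun v =>
    (X.mem_N_succ j _).2 ⟨v, rfl⟩
  refine ev_right (X.N j).subtype ((X.P j).transpose.mulVecLin.codRestrict (X.N (j + 1)) hmem)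
    ?_ Subtype.val_injective ?_ (fun i hi => SR.ev_pi _ K i hi) l hl
  · intro v
    rw [Submodule.coe_subtype, Subtype.range_coe_subtype]
    show _ ↔ v ∈ LinearMap.ker _
    rw [LinearMap.mem_ker]
    constructor
    · intro h
      exact congrArg Subtype.val h
    · intro h
      exact Subtype.ext h
  · rintro ⟨c, hc⟩
    obtain ⟨d, hd⟩ := (X.mem_N_succ j c).1 hc
    exact ⟨d, Subtype.ext hd⟩

theorem ev_N (j : ℕ) (K : Type) [AddCommGroup K] [Module (SR k) K] (l : ℕ) (hl : 1 ≤ l) :
    EV (SR k) K (X.N 0) (l + j) ↔ EV (SR k) K (X.N j) l := by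
  induction j generalizing l with
  | zero => rfl
  | succ j ih =>
    rw [X.ev_N_succ j K l hl, ← ih (l + 1) (by omega)]
    rw [show l + 1 + j = l + (j + 1) by omega]

/-- the shifted resolution -/
def shift (n : ℕ) : Res k where
  b i := X.b (n + i)
  P i := X.P (n + i)
  exact i v := X.exact (n + i) v
  min i p q := X.min (n + i) p q

end Res

/-- homomorphisms from a cokernel -/
noncomputable def homCok {l m : ℕ} (R : Matrix (Fin l) (Fin m) (SR k)) :
    (((Fin l → SR k) ⧸ LinearMap.range R.mulVecLin) →ₗ[SR k] SR k) ≃ₗ[SR k]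
      LinearMap.ker R.transpose.mulVecLin where
  toFun f := ⟨fun i => f (Submodule.Quotient.mk (Pi.single i 1)), by
    rw [LinearMap.mem_ker, Matrix.mulVecLin_apply]
    funext j
    have h1 : f (Submodule.Quotient.mk (R.mulVec (Pi.single j 1))) = 0 := by
      have : (Submodule.Quotient.mk (R.mulVec (Pi.single j 1)) :
          (Fin l → SR k) ⧸ LinearMap.range R.mulVecLin) = 0 := by
        rw [Submodule.Quotient.mk_eq_zero]
        exact ⟨_, rfl⟩
      rw [this, map_zero]
    have h2 : R.mulVec (Pi.single j 1) = ∑ i, R i j • Pi.single i (1 : SR k) := by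
      funext i
      simp [Finset.sum_apply, Pi.single_apply]
    rw [h2] at h1
    have h3 : (Submodule.Quotient.mk (∑ i, R i j • Pi.single i (1 : SR k)) :
        (Fin l → SR k) ⧸ LinearMap.range R.mulVecLin) =
        ∑ i, R i j • Submodule.Quotient.mk (Pi.single i (1 : SR k)) := by
      rw [← Submodule.mkQ_apply, map_sum]
      rfl
    rw [h3, map_sum] at h1
    simp only [map_smul, smul_eq_mul] at h1
    exact h1⟩
  map_add' f g := rfl
  map_smul' c f := rfl
  invFun c := (LinearMap.range R.mulVecLin).liftQ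
    { toFun := fun v => (c : Fin l → SR k) ⬝ᵥ v
      map_add' := fun v w => dotProduct_add _ v w
      map_smul' := fun s v => by rw [dotProduct_smul, RingHom.id_apply] } (by
        rintro _ ⟨w, rfl⟩
        show (c : Fin l → SR k) ⬝ᵥ R.mulVec w = 0
        rw [Matrix.dotProduct_mulVec, ← Matrix.mulVec_transpose]
        have := c.2
        rw [LinearMap.mem_ker, Matrix.mulVecLin_apply] at this
        rw [this, zero_dotProduct])
  left_inv f := by
    apply LinearMap.ext
    intro v
    obtain ⟨v, rfl⟩ := Submodule.Quotient.mk_surjective _ v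
    show (fun i => f (Submodule.Quotient.mk (Pi.single i 1))) ⬝ᵥ v = _
    conv_rhs => rw [pi_eq_sum_univ' v]
    rw [← Submodule.mkQ_apply, map_sum, map_sum, dotProduct]
    apply Finset.sum_congr rfl
    intro i _
    rw [map_smul, map_smul, smul_eq_mul, mul_comm]
    congr 2
  right_inv c := by
    apply Subtype.ext
    funext i
    show (c : Fin l → SR k) ⬝ᵥ Pi.single i 1 = _
    simp

end Pool.Agent.TH43.AB
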