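import Mathlib

/-!
# The Gorenstein algebra `SR k` with Hilbert function `(1, 6, 6, 1)`

Basis `1; a, x, y, v, w, z; o, ax, ay, av, aw, az; ao`; products of basis elements of degree one:
`a^2 = 0`, `a * t = at`, `x y = o`, `z^2 = o`, `v w = o + ay`, `x v = av`, `x w = aw`, all others zero;
products of degree one and degree two: `a * o = x * ay = y * ax = v * aw = w * av = z * az = ao`.
-/

set_option autoImplicit false

namespace Pool.Agent.TH43.AB

/-- coordinates with respect to the basis `1; a, x, y, v, w, z; o, ax, ay, av, aw, az; ao` -/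
@[ext]
structure SR (k : Type) where

  u : k
  a : k
  x : k
  y : k
  v : k
  w : k
  z : k
  o : k
  ax : k
  ay : k
  av : k
  aw : k
  az : k
  ao : k

namespace SR

variable {k : Type}

section ring

variable [CommRing k]

instance : Zero (SR k) := ⟨⟨0, 0, 0, 0, 0, 0, 0, 0, 0, 0, 0, 0, 0, 0⟩⟩
instance : One (SR k) := ⟨⟨1, 0, 0, 0, 0, 0, 0, 0, 0, 0, 0, 0, 0, 0⟩⟩
instance : Add (SR k) := ⟨fun s t => ⟨s.u + t.u, s.a + t.a, s.x + t.x, s.y + t.y, s.v + t.v, s.w + t.w, s.z + t.z, s.o + t.o, s.ax + t.ax, s.ay + t.ay, s.av + t.av, s.aw + t.aw, s.az + t.az, s.ao + t.ao⟩⟩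
instance : Neg (SR k) := ⟨fun s => ⟨-s.u, -s.a, -s.x, -s.y, -s.v, -s.w, -s.z, -s.o, -s.ax, -s.ay, -s.av, -s.aw, -s.az, -s.ao⟩⟩
instance : Sub (SR k) := ⟨fun s t => ⟨s.u - t.u, s.a - t.a, s.x - t.x, s.y - t.y, s.v - t.v, s.w - t.w, s.z - t.z, s.o - t.o, s.ax - t.ax, s.ay - t.ay, s.av - t.av, s.aw - t.aw, s.az - t.az, s.ao - t.ao⟩⟩
instance : Mul (SR k) := ⟨fun s t => ⟨s.u * t.u,
  s.u * t.a + s.a * t.u,
  s.u * t.x + s.x * t.u,
  s.u * t.y + s.y * t.u,
  s.u * t.v + s.v * t.u,
  s.u * t.w + s.w * t.u,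
  s.u * t.z + s.z * t.u,
  s.u * t.o + s.o * t.u + s.x * t.y + s.y * t.x + s.v * t.w + s.w * t.v + s.z * t.z,
  s.u * t.ax + s.ax * t.u + s.a * t.x + s.x * t.a,
  s.u * t.ay + s.ay * t.u + s.a * t.y + s.y * t.a + s.v * t.w + s.w * t.v,
  s.u * t.av + s.av * t.u + s.a * t.v + s.v * t.a + s.x * t.v + s.v * t.x,
  s.u * t.aw + s.aw * t.u + s.a * t.w + s.w * t.a + s.x * t.w + s.w * t.x,
  s.u * t.az + s.az * t.u + s.a * t.z + s.z * t.a,
  s.u * t.ao + s.ao * t.u + s.a * t.o + s.o * t.a + s.x * t.ay + s.ay * t.x + s.y * t.ax + s.ax * t.y + s.v * t.aw + s.aw * t.v + s.w * t.av + s.av * t.w + s.z * t.az + s.az * t.z⟩⟩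
instance : SMul k (SR k) := ⟨fun c t => ⟨c * t.u, c * t.a, c * t.x, c * t.y, c * t.v, c * t.w, c * t.z, c * t.o, c * t.ax, c * t.ay, c * t.av, c * t.aw, c * t.az, c * t.ao⟩⟩
instance : SMul ℕ (SR k) := ⟨fun n t => ⟨n • t.u, n • t.a, n • t.x, n • t.y, n • t.v, n • t.w, n • t.z, n • t.o, n • t.ax, n • t.ay, n • t.av, n • t.aw, n • t.az, n • t.ao⟩⟩
instance : SMul ℤ (SR k) := ⟨fun n t => ⟨n • t.u, n • t.a, n • t.x, n • t.y, n • t.v, n • t.w, n • t.z, n • t.o, n • t.ax, n • t.ay, n • t.av, n • t.aw, n • t.az, n • t.ao⟩⟩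
instance : NatCast (SR k) := ⟨fun n => ⟨n, 0, 0, 0, 0, 0, 0, 0, 0, 0, 0, 0, 0, 0⟩⟩
instance : IntCast (SR k) := ⟨fun n => ⟨n, 0, 0, 0, 0, 0, 0, 0, 0, 0, 0, 0, 0, 0⟩⟩

@[simp] theorem zero_u : (0 : SR k).u = 0 := rfl
@[simp] theorem zero_a : (0 : SR k).a = 0 := rfl
@[simp] theorem zero_x : (0 : SR k).x = 0 := rfl
@[simp] theorem zero_y : (0 : SR k).y = 0 := rfl
@[simp] theorem zero_v : (0 : SR k).v = 0 := rfl
@[simp] theorem zero_w : (0 : SR k).w = 0 := rfl
@[simp] theorem zero_z : (0 : SR k).z = 0 := rfl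
@[simp] theorem zero_o : (0 : SR k).o = 0 := rfl
@[simp] theorem zero_ax : (0 : SR k).ax = 0 := rfl
@[simp] theorem zero_ay : (0 : SR k).ay = 0 := rfl
@[simp] theorem zero_av : (0 : SR k).av = 0 := rfl
@[simp] theorem zero_aw : (0 : SR k).aw = 0 := rfl
@[simp] theorem zero_az : (0 : SR k).az = 0 := rfl
@[simp] theorem zero_ao : (0 : SR k).ao = 0 := rfl
@[simp] theorem one_u : (1 : SR k).u = 1 := rfl
@[simp] theorem one_a : (1 : SR k).a = 0 := rfl
@[simp] theorem one_x : (1 : SR k).x = 0 := rfl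
@[simp] theorem one_y : (1 : SR k).y = 0 := rfl
@[simp] theorem one_v : (1 : SR k).v = 0 := rfl
@[simp] theorem one_w : (1 : SR k).w = 0 := rfl
@[simp] theorem one_z : (1 : SR k).z = 0 := rfl
@[simp] theorem one_o : (1 : SR k).o = 0 := rfl
@[simp] theorem one_ax : (1 : SR k).ax = 0 := rfl
@[simp] theorem one_ay : (1 : SR k).ay = 0 := rfl
@[simp] theorem one_av : (1 : SR k).av = 0 := rfl
@[simp] theorem one_aw : (1 : SR k).aw = 0 := rfl
@[simp] theorem one_az : (1 : SR k).az = 0 := rfl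
@[simp] theorem one_ao : (1 : SR k).ao = 0 := rfl
@[simp] theorem add_u (s t : SR k) : (s + t).u = s.u + t.u := rfl
@[simp] theorem add_a (s t : SR k) : (s + t).a = s.a + t.a := rfl
@[simp] theorem add_x (s t : SR k) : (s + t).x = s.x + t.x := rfl
@[simp] theorem add_y (s t : SR k) : (s + t).y = s.y + t.y := rfl
@[simp] theorem add_v (s t : SR k) : (s + t).v = s.v + t.v := rfl
@[simp] theorem add_w (s t : SR k) : (s + t).w = s.w + t.w := rfl
@[simp] theorem add_z (s t : SR k) : (s + t).z = s.z + t.z := rfl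
@[simp] theorem add_o (s t : SR k) : (s + t).o = s.o + t.o := rfl
@[simp] theorem add_ax (s t : SR k) : (s + t).ax = s.ax + t.ax := rfl
@[simp] theorem add_ay (s t : SR k) : (s + t).ay = s.ay + t.ay := rfl
@[simp] theorem add_av (s t : SR k) : (s + t).av = s.av + t.av := rfl
@[simp] theorem add_aw (s t : SR k) : (s + t).aw = s.aw + t.aw := rfl
@[simp] theorem add_az (s t : SR k) : (s + t).az = s.az + t.az := rfl
@[simp] theorem add_ao (s t : SR k) : (s + t).ao = s.ao + t.ao := rfl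
@[simp] theorem neg_u (s : SR k) : (-s).u = -s.u := rfl
@[simp] theorem neg_a (s : SR k) : (-s).a = -s.a := rfl
@[simp] theorem neg_x (s : SR k) : (-s).x = -s.x := rfl
@[simp] theorem neg_y (s : SR k) : (-s).y = -s.y := rfl
@[simp] theorem neg_v (s : SR k) : (-s).v = -s.v := rfl
@[simp] theorem neg_w (s : SR k) : (-s).w = -s.w := rfl
@[simp] theorem neg_z (s : SR k) : (-s).z = -s.z := rfl
@[simp] theorem neg_o (s : SR k) : (-s).o = -s.o := rfl
@[simp] theorem neg_ax (s : SR k) : (-s).ax = -s.ax := rfl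
@[simp] theorem neg_ay (s : SR k) : (-s).ay = -s.ay := rfl
@[simp] theorem neg_av (s : SR k) : (-s).av = -s.av := rfl
@[simp] theorem neg_aw (s : SR k) : (-s).aw = -s.aw := rfl
@[simp] theorem neg_az (s : SR k) : (-s).az = -s.az := rfl
@[simp] theorem neg_ao (s : SR k) : (-s).ao = -s.ao := rfl
@[simp] theorem sub_u (s t : SR k) : (s - t).u = s.u - t.u := rfl
@[simp] theorem sub_a (s t : SR k) : (s - t).a = s.a - t.a := rfl
@[simp] theorem sub_x (s t : SR k) : (s - t).x = s.x - t.x := rfl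
@[simp] theorem sub_y (s t : SR k) : (s - t).y = s.y - t.y := rfl
@[simp] theorem sub_v (s t : SR k) : (s - t).v = s.v - t.v := rfl
@[simp] theorem sub_w (s t : SR k) : (s - t).w = s.w - t.w := rfl
@[simp] theorem sub_z (s t : SR k) : (s - t).z = s.z - t.z := rfl
@[simp] theorem sub_o (s t : SR k) : (s - t).o = s.o - t.o := rfl
@[simp] theorem sub_ax (s t : SR k) : (s - t).ax = s.ax - t.ax := rfl
@[simp] theorem sub_ay (s t : SR k) : (s - t).ay = s.ay - t.ay := rfl
@[simp] theorem sub_av (s t : SR k) : (s - t).av = s.av - t.av := rfl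
@[simp] theorem sub_aw (s t : SR k) : (s - t).aw = s.aw - t.aw := rfl
@[simp] theorem sub_az (s t : SR k) : (s - t).az = s.az - t.az := rfl
@[simp] theorem sub_ao (s t : SR k) : (s - t).ao = s.ao - t.ao := rfl
@[simp] theorem mul_u (s t : SR k) : (s * t).u = s.u * t.u := rfl
@[simp] theorem mul_a (s t : SR k) : (s * t).a = s.u * t.a + s.a * t.u := rfl
@[simp] theorem mul_x (s t : SR k) : (s * t).x = s.u * t.x + s.x * t.u := rfl
@[simp] theorem mul_y (s t : SR k) : (s * t).y = s.u * t.y + s.y * t.u := rfl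
@[simp] theorem mul_v (s t : SR k) : (s * t).v = s.u * t.v + s.v * t.u := rfl
@[simp] theorem mul_w (s t : SR k) : (s * t).w = s.u * t.w + s.w * t.u := rfl
@[simp] theorem mul_z (s t : SR k) : (s * t).z = s.u * t.z + s.z * t.u := rfl
@[simp] theorem mul_o (s t : SR k) : (s * t).o = s.u * t.o + s.o * t.u + s.x * t.y + s.y * t.x + s.v * t.w + s.w * t.v + s.z * t.z := rfl
@[simp] theorem mul_ax (s t : SR k) : (s * t).ax = s.u * t.ax + s.ax * t.u + s.a * t.x + s.x * t.a := rfl
@[simp] theorem mul_ay (s t : SR k) : (s * t).ay = s.u * t.ay + s.ay * t.u + s.a * t.y + s.y * t.a + s.v * t.w + s.w * t.v := rfl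
@[simp] theorem mul_av (s t : SR k) : (s * t).av = s.u * t.av + s.av * t.u + s.a * t.v + s.v * t.a + s.x * t.v + s.v * t.x := rfl
@[simp] theorem mul_aw (s t : SR k) : (s * t).aw = s.u * t.aw + s.aw * t.u + s.a * t.w + s.w * t.a + s.x * t.w + s.w * t.x := rfl
@[simp] theorem mul_az (s t : SR k) : (s * t).az = s.u * t.az + s.az * t.u + s.a * t.z + s.z * t.a := rfl
@[simp] theorem mul_ao (s t : SR k) : (s * t).ao = s.u * t.ao + s.ao * t.u + s.a * t.o + s.o * t.a + s.x * t.ay + s.ay * t.x + s.y * t.ax + s.ax * t.y + s.v * t.aw + s.aw * t.v + s.w * t.av + s.av * t.w + s.z * t.az + s.az * t.z := rfl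
@[simp] theorem smul_u (c : k) (t : SR k) : (c • t).u = c * t.u := rfl
@[simp] theorem smul_a (c : k) (t : SR k) : (c • t).a = c * t.a := rfl
@[simp] theorem smul_x (c : k) (t : SR k) : (c • t).x = c * t.x := rfl
@[simp] theorem smul_y (c : k) (t : SR k) : (c • t).y = c * t.y := rfl
@[simp] theorem smul_v (c : k) (t : SR k) : (c • t).v = c * t.v := rfl
@[simp] theorem smul_w (c : k) (t : SR k) : (c • t).w = c * t.w := rfl
@[simp] theorem smul_z (c : k) (t : SR k) : (c • t).z = c * t.z := rfl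
@[simp] theorem smul_o (c : k) (t : SR k) : (c • t).o = c * t.o := rfl
@[simp] theorem smul_ax (c : k) (t : SR k) : (c • t).ax = c * t.ax := rfl
@[simp] theorem smul_ay (c : k) (t : SR k) : (c • t).ay = c * t.ay := rfl
@[simp] theorem smul_av (c : k) (t : SR k) : (c • t).av = c * t.av := rfl
@[simp] theorem smul_aw (c : k) (t : SR k) : (c • t).aw = c * t.aw := rfl
@[simp] theorem smul_az (c : k) (t : SR k) : (c • t).az = c * t.az := rfl
@[simp] theorem smul_ao (c : k) (t : SR k) : (c • t).ao = c * t.ao := rfl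
@[simp] theorem nsmul_u (n : ℕ) (t : SR k) : (n • t).u = n • t.u := rfl
@[simp] theorem nsmul_a (n : ℕ) (t : SR k) : (n • t).a = n • t.a := rfl
@[simp] theorem nsmul_x (n : ℕ) (t : SR k) : (n • t).x = n • t.x := rfl
@[simp] theorem nsmul_y (n : ℕ) (t : SR k) : (n • t).y = n • t.y := rfl
@[simp] theorem nsmul_v (n : ℕ) (t : SR k) : (n • t).v = n • t.v := rfl
@[simp] theorem nsmul_w (n : ℕ) (t : SR k) : (n • t).w = n • t.w := rfl
@[simp] theorem nsmul_z (n : ℕ) (t : SR k) : (n • t).z = n • t.z := rfl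
@[simp] theorem nsmul_o (n : ℕ) (t : SR k) : (n • t).o = n • t.o := rfl
@[simp] theorem nsmul_ax (n : ℕ) (t : SR k) : (n • t).ax = n • t.ax := rfl
@[simp] theorem nsmul_ay (n : ℕ) (t : SR k) : (n • t).ay = n • t.ay := rfl
@[simp] theorem nsmul_av (n : ℕ) (t : SR k) : (n • t).av = n • t.av := rfl
@[simp] theorem nsmul_aw (n : ℕ) (t : SR k) : (n • t).aw = n • t.aw := rfl
@[simp] theorem nsmul_az (n : ℕ) (t : SR k) : (n • t).az = n • t.az := rfl
@[simp] theorem nsmul_ao (n : ℕ) (t : SR k) : (n • t).ao = n • t.ao := rfl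
@[simp] theorem zsmul_u (n : ℤ) (t : SR k) : (n • t).u = n • t.u := rfl
@[simp] theorem zsmul_a (n : ℤ) (t : SR k) : (n • t).a = n • t.a := rfl
@[simp] theorem zsmul_x (n : ℤ) (t : SR k) : (n • t).x = n • t.x := rfl
@[simp] theorem zsmul_y (n : ℤ) (t : SR k) : (n • t).y = n • t.y := rfl
@[simp] theorem zsmul_v (n : ℤ) (t : SR k) : (n • t).v = n • t.v := rfl
@[simp] theorem zsmul_w (n : ℤ) (t : SR k) : (n • t).w = n • t.w := rfl
@[simp] theorem zsmul_z (n : ℤ) (t : SR k) : (n • t).z = n • t.z := rfl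
@[simp] theorem zsmul_o (n : ℤ) (t : SR k) : (n • t).o = n • t.o := rfl
@[simp] theorem zsmul_ax (n : ℤ) (t : SR k) : (n • t).ax = n • t.ax := rfl
@[simp] theorem zsmul_ay (n : ℤ) (t : SR k) : (n • t).ay = n • t.ay := rfl
@[simp] theorem zsmul_av (n : ℤ) (t : SR k) : (n • t).av = n • t.av := rfl
@[simp] theorem zsmul_aw (n : ℤ) (t : SR k) : (n • t).aw = n • t.aw := rfl
@[simp] theorem zsmul_az (n : ℤ) (t : SR k) : (n • t).az = n • t.az := rfl
@[simp] theorem zsmul_ao (n : ℤ) (t : SR k) : (n • t).ao = n • t.ao := rfl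
@[simp] theorem natCast_u (n : ℕ) : (n : SR k).u = (n : k) := rfl
@[simp] theorem natCast_a (n : ℕ) : (n : SR k).a = 0 := rfl
@[simp] theorem natCast_x (n : ℕ) : (n : SR k).x = 0 := rfl
@[simp] theorem natCast_y (n : ℕ) : (n : SR k).y = 0 := rfl
@[simp] theorem natCast_v (n : ℕ) : (n : SR k).v = 0 := rfl
@[simp] theorem natCast_w (n : ℕ) : (n : SR k).w = 0 := rfl
@[simp] theorem natCast_z (n : ℕ) : (n : SR k).z = 0 := rfl
@[simp] theorem natCast_o (n : ℕ) : (n : SR k).o = 0 := rfl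
@[simp] theorem natCast_ax (n : ℕ) : (n : SR k).ax = 0 := rfl
@[simp] theorem natCast_ay (n : ℕ) : (n : SR k).ay = 0 := rfl
@[simp] theorem natCast_av (n : ℕ) : (n : SR k).av = 0 := rfl
@[simp] theorem natCast_aw (n : ℕ) : (n : SR k).aw = 0 := rfl
@[simp] theorem natCast_az (n : ℕ) : (n : SR k).az = 0 := rfl
@[simp] theorem natCast_ao (n : ℕ) : (n : SR k).ao = 0 := rfl
@[simp] theorem intCast_u (n : ℤ) : (n : SR k).u = (n : k) := rfl
@[simp] theorem intCast_a (n : ℤ) : (n : SR k).a = 0 := rfl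
@[simp] theorem intCast_x (n : ℤ) : (n : SR k).x = 0 := rfl
@[simp] theorem intCast_y (n : ℤ) : (n : SR k).y = 0 := rfl
@[simp] theorem intCast_v (n : ℤ) : (n : SR k).v = 0 := rfl
@[simp] theorem intCast_w (n : ℤ) : (n : SR k).w = 0 := rfl
@[simp] theorem intCast_z (n : ℤ) : (n : SR k).z = 0 := rfl
@[simp] theorem intCast_o (n : ℤ) : (n : SR k).o = 0 := rfl
@[simp] theorem intCast_ax (n : ℤ) : (n : SR k).ax = 0 := rfl
@[simp] theorem intCast_ay (n : ℤ) : (n : SR k).ay = 0 := rfl
@[simp] theorem intCast_av (n : ℤ) : (n : SR k).av = 0 := rfl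
@[simp] theorem intCast_aw (n : ℤ) : (n : SR k).aw = 0 := rfl
@[simp] theorem intCast_az (n : ℤ) : (n : SR k).az = 0 := rfl
@[simp] theorem intCast_ao (n : ℤ) : (n : SR k).ao = 0 := rfl

/-- the coordinates -/
def toProd (s : SR k) : Fin 14 → k :=
  ![s.u, s.a, s.x, s.y, s.v, s.w, s.z, s.o, s.ax, s.ay, s.av, s.aw, s.az, s.ao]

instance commRing : CommRing (SR k) where
  add_assoc s t r := by ext <;> simp <;> ring
  zero_add s := by ext <;> simp
  add_zero s := by ext <;> simp
  add_comm s t := by ext <;> simp <;> ring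
  neg_add_cancel s := by ext <;> simp
  sub_eq_add_neg s t := by ext <;> simp <;> ring
  nsmul n s := n • s
  nsmul_zero s := by ext <;> simp
  nsmul_succ n s := by ext <;> simp <;> ring
  zsmul n s := n • s
  zsmul_zero' s := by ext <;> simp
  zsmul_succ' n s := by ext <;> simp <;> ring
  zsmul_neg' n s := by ext <;> simp <;> ring
  mul_assoc s t r := by ext <;> simp <;> ring
  one_mul s := by ext <;> simp
  mul_one s := by ext <;> simp
  mul_comm s t := by ext <;> simp <;> ring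
  zero_mul s := by ext <;> simp
  mul_zero s := by ext <;> simp
  left_distrib s t r := by ext <;> simp <;> ring
  right_distrib s t r := by ext <;> simp <;> ring
  natCast n := n
  natCast_zero := by ext <;> simp
  natCast_succ n := by ext <;> simp
  intCast n := n
  intCast_ofNat n := by ext <;> simp
  intCast_negSucc n := by ext <;> simp


instance module : Module k (SR k) where
  one_smul s := by ext <;> simp
  mul_smul c d s := by ext <;> simp <;> ring
  smul_zero c := by ext <;> simp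
  smul_add c s t := by ext <;> simp <;> ring
  add_smul c d s := by ext <;> simp <;> ring
  zero_smul s := by ext <;> simp

instance algebra : Algebra k (SR k) :=
  Algebra.ofModule (fun c s t => by ext <;> simp <;> ring) (fun c s t => by ext <;> simp <;> ring)

/-- the coordinate isomorphism -/
def coord : SR k ≃ₗ[k] (Fin 14 → k) where
  toFun := toProd
  map_add' s t := by
    funext i
    fin_cases i <;> rfl
  map_smul' c s := by
    funext i
    fin_cases i <;> rfl
  invFun f := ⟨f 0, f 1, f 2, f 3, f 4, f 5, f 6, f 7, f 8, f 9, f 10, f 11, f 12, f 13⟩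
  left_inv s := rfl
  right_inv f := by
    funext i
    fin_cases i <;> rfl

instance : Module.Finite k (SR k) := Module.Finite.equiv (coord (k := k)).symm

instance : Module.Free k (SR k) := Module.Free.of_equiv (coord (k := k)).symm

@[simp] theorem algebraMap_u (c : k) : (algebraMap k (SR k) c).u = c := by
  rw [Algebra.algebraMap_eq_smul_one]; simp
@[simp] theorem algebraMap_a (c : k) : (algebraMap k (SR k) c).a = 0 := by
  rw [Algebra.algebraMap_eq_smul_one]; simp
@[simp] theorem algebraMap_x (c : k) : (algebraMap k (SR k) c).x = 0 := by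
  rw [Algebra.algebraMap_eq_smul_one]; simp
@[simp] theorem algebraMap_y (c : k) : (algebraMap k (SR k) c).y = 0 := by
  rw [Algebra.algebraMap_eq_smul_one]; simp
@[simp] theorem algebraMap_v (c : k) : (algebraMap k (SR k) c).v = 0 := by
  rw [Algebra.algebraMap_eq_smul_one]; simp
@[simp] theorem algebraMap_w (c : k) : (algebraMap k (SR k) c).w = 0 := by
  rw [Algebra.algebraMap_eq_smul_one]; simp
@[simp] theorem algebraMap_z (c : k) : (algebraMap k (SR k) c).z = 0 := by
  rw [Algebra.algebraMap_eq_smul_one]; simp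
@[simp] theorem algebraMap_o (c : k) : (algebraMap k (SR k) c).o = 0 := by
  rw [Algebra.algebraMap_eq_smul_one]; simp
@[simp] theorem algebraMap_ax (c : k) : (algebraMap k (SR k) c).ax = 0 := by
  rw [Algebra.algebraMap_eq_smul_one]; simp
@[simp] theorem algebraMap_ay (c : k) : (algebraMap k (SR k) c).ay = 0 := by
  rw [Algebra.algebraMap_eq_smul_one]; simp
@[simp] theorem algebraMap_av (c : k) : (algebraMap k (SR k) c).av = 0 := by
  rw [Algebra.algebraMap_eq_smul_one]; simp
@[simp] theorem algebraMap_aw (c : k) : (algebraMap k (SR k) c).aw = 0 := by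
  rw [Algebra.algebraMap_eq_smul_one]; simp
@[simp] theorem algebraMap_az (c : k) : (algebraMap k (SR k) c).az = 0 := by
  rw [Algebra.algebraMap_eq_smul_one]; simp
@[simp] theorem algebraMap_ao (c : k) : (algebraMap k (SR k) c).ao = 0 := by
  rw [Algebra.algebraMap_eq_smul_one]; simp

/-- the element `a` -/
def A : SR k := ⟨0, 1, 0, 0, 0, 0, 0, 0, 0, 0, 0, 0, 0, 0⟩

end ring

section field

variable [Field k]

theorem finrank_eq : Module.finrank k (SR k) = 14 := by
  rw [LinearEquiv.finrank_eq (coord (k := k)), Module.finrank_fin_fun]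

instance : Nontrivial (SR k) := ⟨0, 1, fun h => by
  have := congrArg SR.u h
  simp at this⟩

theorem isUnit_of_u {s : SR k} (hs : s.u ≠ 0) : IsUnit s := by
  set n : SR k := s - algebraMap k (SR k) s.u with hn
  have h0 : n.u = 0 := by simp [hn]
  have hp : IsNilpotent n := by
    refine ⟨4, ?_⟩
    have h1 : n ^ 4 = (n * n) * (n * n) := by ring
    set p := n * n with hpp
    have e0 : p.u = 0 := by simp [hpp, h0]
    have e1 : p.a = 0 := by simp [hpp, h0]
    have e2 : p.x = 0 := by simp [hpp, h0]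
    have e3 : p.y = 0 := by simp [hpp, h0]
    have e4 : p.v = 0 := by simp [hpp, h0]
    have e5 : p.w = 0 := by simp [hpp, h0]
    have e6 : p.z = 0 := by simp [hpp, h0]
    rw [h1]
    ext <;> simp [e0, e1, e2, e3, e4, e5, e6]
  have hu : IsUnit (algebraMap k (SR k) s.u) := (IsUnit.mk0 _ hs).map _
  have h2 : s = algebraMap k (SR k) s.u + n := by rw [hn]; ring
  rw [h2]
  exact hp.isUnit_add_left_of_commute hu (Commute.all _ _)

theorem isUnit_iff {s : SR k} : IsUnit s ↔ s.u ≠ 0 := by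
  constructor
  · rintro ⟨t, rfl⟩ h
    have h1 := congrArg SR.u t.mul_inv
    rw [mul_u, h, zero_mul, one_u] at h1
    exact zero_ne_one h1
  · exact isUnit_of_u

instance : IsLocalRing (SR k) := by
  refine IsLocalRing.of_nonunits_add ?_
  intro s t hs ht
  rw [mem_nonunits_iff, isUnit_iff, not_not] at *
  simp [hs, ht]

theorem mem_maximalIdeal {s : SR k} : s ∈ IsLocalRing.maximalIdeal (SR k) ↔ s.u = 0 := by
  rw [IsLocalRing.mem_maximalIdeal, mem_nonunits_iff, isUnit_iff, not_not]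

instance : IsNoetherianRing (SR k) := IsNoetherianRing.of_finite k (SR k)

end field

end SR

end Pool.Agent.TH43.AB
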