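import Pool.Agent.TH43.AB.Exist

/-!
# The uniform Auslander condition for `SR k`, `k` the algebraic closure of a prime field
-/

set_option autoImplicit false

open CategoryTheory Abelian

namespace Pool.Agent.TH43.AB

def S_GROWTH : Prop := ∀ {k : Type} [Field k] (X : Res k),
    ∃ h : ℕ, ∀ i, 5 * X.b (i + 1) ≤ X.b (i + 2) + X.b i + h

def S_INEQ : Prop := ∀ {k : Type} [Field k] (X Y : Res k)
    (_ : ∀ i j, ∀ φ : X.U i →ₗ[SR k] Y.N j,
      ∃ ψ : (Fin (X.b i) → SR k) →ₗ[SR k] Y.N j, ψ ∘ₗ (X.U i).subtype = φ)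
    (_ : ∀ j (c : Fin (Y.b (j + 1)) → SR k), c ∈ Y.N (j + 1) ↔
      ∃ d, (Y.P j).transpose.mulVec d = c) (i j : ℕ),
    (X.b i + X.b (i + 1)) * (Y.b j + Y.b (j + 1)) ≤ 14 * (X.b i * Y.b j)

def S_PIGEON : Prop := ∀ {k : Type} [Field k] (X : Res k) (F : Subfield k) [Finite F]
    (_ : ∀ i p q, (X.P i p q).Mem F) (B : ℕ) (_ : ∀ i, X.b i ≤ B),
    ∃ i j, i < j ∧ Nonempty (X.M i ≃ₗ[SR k] X.M j) ∧ Nonempty (X.N i ≃ₗ[SR k] X.N j)

/-- dichotomy for sequences of natural numbers -/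
theorem dich (b : ℕ → ℕ) (h : ℕ) (hb : ∀ i, 5 * b (i + 1) ≤ b (i + 2) + b i + h) :
    (∃ B, ∀ i, b i ≤ B) ∨ ∃ i, 0 < b i ∧ 3 * b i ≤ b (i + 1) := by
  by_cases hc : ∃ i, b i < b (i + 1) ∧ h ≤ b (i + 1)
  · obtain ⟨i, h1, h2⟩ := hc
    right
    refine ⟨i + 1, by omega, ?_⟩
    have := hb i
    show 3 * b (i + 1) ≤ b (i + 2)
    omega
  · left
    push Not at hc
    refine ⟨b 0 + h, ?_⟩
    intro i
    induction i with
    | zero => omega
    | succ i ih =>
      by_cases h1 : b i < b (i + 1)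
      · have := hc i h1
        omega
      · omega

variable {k : Type} [Field k]

/-- syzygies in the second variable -/
theorem exists_syz (N : Type) [AddCommGroup N] [Module (SR k) N] [Module.Finite (SR k) N]
    (r : ℕ) : ∃ (N' : Type) (_ : AddCommGroup N') (_ : Module (SR k) N'),
      Module.Finite (SR k) N' ∧ ∀ (K : Type) [AddCommGroup K] [Module (SR k) K] (l : ℕ),
        1 ≤ l → (EV (SR k) K N l ↔ EV (SR k) K N' (l + r)) := by
  induction r with
  | zero => exact ⟨N, _, _, inferInstance, fun K _ _ l _ => Iff.rfl⟩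
  | succ r ih =>
    obtain ⟨N', i1, i2, i3, h⟩ := ih
    obtain ⟨n, f, hf⟩ := Module.Finite.exists_fin' (SR k) N'
    refine ⟨LinearMap.ker f, inferInstance, inferInstance, inferInstance, ?_⟩
    intro K _ _ l hl
    rw [h K l hl, ← add_assoc]
    exact ev_right (LinearMap.ker f).subtype f (by
      intro v
      simp) Subtype.val_injective hf (fun i hi => SR.ev_pi n K i hi) (l + r) (by omega)

/-- cosyzygies in the first variable -/
theorem exists_cosyz (M : Type) [AddCommGroup M] [Module (SR k) M] [Module.Finite (SR k) M]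
    (r : ℕ) : ∃ (M' : Type) (_ : AddCommGroup M') (_ : Module (SR k) M'),
      Module.Finite (SR k) M' ∧ ∀ (K : Type) [AddCommGroup K] [Module (SR k) K] (l : ℕ),
        1 ≤ l → (EV (SR k) M K l ↔ EV (SR k) M' K (l + r)) := by
  induction r with
  | zero => exact ⟨M, _, _, inferInstance, fun K _ _ l _ => Iff.rfl⟩
  | succ r ih =>
    obtain ⟨M', i1, i2, i3, h⟩ := ih
    obtain ⟨n, f, hf⟩ := SR.exists_embed (k := k) M'
    refine ⟨(Fin n → SR k) ⧸ LinearMap.range f, inferInstance, inferInstance, inferInstance, ?_⟩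
    intro K _ _ l hl
    rw [h K l hl, ← add_assoc]
    exact (ev_left f (LinearMap.range f).mkQ (by
      intro v
      simp) hf (Submodule.mkQ_surjective _) (l + r) (by omega)).symm

/-- vanishing propagates downwards along a period -/
theorem down (V : ℕ → Prop) (q n0 : ℕ) (hq : 0 < q) (hV : ∀ l, 1 ≤ l → (V l ↔ V (l + q)))
    (h0 : ∀ l, n0 ≤ l → V l) (l : ℕ) (hl : 1 ≤ l) : V l := by
  have h1 : ∀ r, V l ↔ V (l + r * q) := by
    intro r
    induction r with
    | zero => simp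
    | succ r ih =>
      rw [ih, hV (l + r * q) (by omega)]
      rw [show l + r * q + q = l + (r + 1) * q by ring]
  rw [h1 n0]
  apply h0
  have : n0 * 1 ≤ n0 * q := Nat.mul_le_mul_left n0 hq
  omega

theorem uac (hG : S_GROWTH) (hI : S_INEQ) (hP : S_PIGEON) (hRK : S_RK) (p : ℕ) [Fact p.Prime]
    (M N : Type) [AddCommGroup M] [Module (SR (AlgebraicClosure (ZMod p))) M]
    [Module.Finite (SR (AlgebraicClosure (ZMod p))) M] [AddCommGroup N]
    [Module (SR (AlgebraicClosure (ZMod p))) N] [Module.Finite (SR (AlgebraicClosure (ZMod p))) N]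
    (n0 : ℕ) (h0 : ∀ i, n0 ≤ i → EV (SR (AlgebraicClosure (ZMod p))) M N i) (i : ℕ)
    (hi : 1 ≤ i) : EV (SR (AlgebraicClosure (ZMod p))) M N i := by
  set K := AlgebraicClosure (ZMod p) with hK
  obtain ⟨X, F, hF, hXF, ⟨e⟩⟩ := exists_res hRK p M
  obtain ⟨Y, F', hF', hYF, ⟨e'⟩⟩ := exists_res_dual hRK p N
  -- transfer to `X.M 0` and `Y.N 0`
  have hXY : ∀ l, EV (SR K) M N l ↔ EV (SR K) (X.M 0) (Y.N 0) l := fun l =>
    (ev_congr_left e l).trans (ev_congr_right e' l)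
  obtain ⟨h1, hg1⟩ := hG (X.shift n0)
  obtain ⟨h2, hg2⟩ := hG Y
  have hvan : ∀ i j l, 1 ≤ l → EV (SR K) ((X.shift n0).M i) (Y.N j) l := by
    intro i j l hl
    have e1 : EV (SR K) (X.M 0) (Y.N j) (l + (n0 + i)) ↔ EV (SR K) (X.M (n0 + i)) (Y.N j) l :=
      X.ev_M (n0 + i) (Y.N j) l hl
    refine e1.1 ?_
    rw [← Y.ev_N j (X.M 0) (l + (n0 + i)) (by omega), ← hXY]
    exact h0 _ (by omega)
  have hineq := hI (X.shift n0) Y (fun i j => ((X.shift n0).ev_M_one i (Y.N j)).1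
    (hvan i j 1 le_rfl)) (fun j c => Y.mem_N_succ j c)
  rcases dich (X.shift n0).b h1 hg1 with ⟨B, hB⟩ | ⟨i1, hi1, hi2⟩
  · -- `M` has bounded Betti numbers
    have hB' : ∀ i, X.b i ≤ B + ∑ l ∈ Finset.range n0, X.b l := by
      intro i
      by_cases hi : i < n0
      · have := Finset.single_le_sum (f := fun l => X.b l) (fun _ _ => Nat.zero_le _)
          (Finset.mem_range.2 hi)
        omega
      · have := hB (i - n0)
        have h3 : (X.shift n0).b (i - n0) = X.b (n0 + (i - n0)) := rfl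
        rw [h3, show n0 + (i - n0) = i by omega] at this
        omega
    obtain ⟨s, t, hst, ⟨f⟩, -⟩ := hP X F hXF _ hB'
    obtain ⟨N', i1, i2, i3, hN'⟩ := exists_syz (k := K) N s
    refine down (fun l => EV (SR K) M N l) (t - s) n0 (by omega) ?_ h0 i hi
    intro l hl
    have a1 : EV (SR K) M N l ↔ EV (SR K) (X.M 0) N' (l + s) := by
      rw [ev_congr_left e l]; exact hN' _ l hl
    have a2 : EV (SR K) (X.M 0) N' (l + s) ↔ EV (SR K) (X.M s) N' l := X.ev_M s N' l hl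
    have a3 : EV (SR K) (X.M s) N' l ↔ EV (SR K) (X.M t) N' l := ev_congr_left f l
    have a4 : EV (SR K) (X.M 0) N' (l + t) ↔ EV (SR K) (X.M t) N' l := X.ev_M t N' l hl
    have a5 : EV (SR K) M N (l + (t - s)) ↔ EV (SR K) (X.M 0) N' (l + t) := by
      rw [ev_congr_left e, hN' _ (l + (t - s)) (by omega)]
      rw [show l + (t - s) + s = l + t by omega]
    exact a1.trans (a2.trans (a3.trans (a4.symm.trans a5.symm)))
  rcases dich Y.b h2 hg2 with ⟨B, hB⟩ | ⟨j1, hj1, hj2⟩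
  · -- the dual of `N` has bounded Betti numbers
    obtain ⟨s, t, hst, -, ⟨f⟩⟩ := hP Y F' hYF _ hB
    obtain ⟨M', i1, i2, i3, hM'⟩ := exists_cosyz (k := K) M s
    refine down (fun l => EV (SR K) M N l) (t - s) n0 (by omega) ?_ h0 i hi
    intro l hl
    have a1 : EV (SR K) M N l ↔ EV (SR K) M' (Y.N 0) (l + s) := by
      rw [ev_congr_right e' l]; exact hM' _ l hl
    have a2 : EV (SR K) M' (Y.N 0) (l + s) ↔ EV (SR K) M' (Y.N s) l := Y.ev_N s M' l hl
    have a3 : EV (SR K) M' (Y.N s) l ↔ EV (SR K) M' (Y.N t) l := ev_congr_right f l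
    have a4 : EV (SR K) M' (Y.N 0) (l + t) ↔ EV (SR K) M' (Y.N t) l := Y.ev_N t M' l hl
    have a5 : EV (SR K) M N (l + (t - s)) ↔ EV (SR K) M' (Y.N 0) (l + t) := by
      rw [ev_congr_right e', hM' _ (l + (t - s)) (by omega)]
      rw [show l + (t - s) + s = l + t by omega]
    exact a1.trans (a2.trans (a3.trans (a4.symm.trans a5.symm)))
  · exfalso
    have h4 := hineq i1 j1
    have h5 : 4 * (X.shift n0).b i1 ≤ (X.shift n0).b i1 + (X.shift n0).b (i1 + 1) := by omega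
    have h6 : 4 * Y.b j1 ≤ Y.b j1 + Y.b (j1 + 1) := by omega
    have h7 := Nat.mul_le_mul h5 h6
    have h8 : 0 < (X.shift n0).b i1 * Y.b j1 := Nat.mul_pos hi1 hj1
    nlinarith

end Pool.Agent.TH43.AB
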